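import Mathlib

set_option autoImplicit false

open Polynomial

namespace Pool.Agent.Results.MP_aad82b_nt.InfinitelyManyNine

/-- Value of the d-th cyclotomic polynomial at 2. -/
noncomputable def Phi (d : ℕ) : ℤ := (cyclotomic d ℤ).eval 2

/-- The prime-to-p part of d. -/
def cp (p d : ℕ) : ℕ := d / p ^ d.factorization p

lemma cp_mul (p a b : ℕ) : cp p (a * b) = cp p a * cp p b := Nat.ordCompl_mul a b p

lemma cp_not_dvd {p d : ℕ} (hp : p.Prime) (hd : d ≠ 0) : ¬ p ∣ cp p d := Nat.not_dvd_ordCompl hp hd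

lemma cp_dvd (p d : ℕ) : cp p d ∣ d := Nat.ordCompl_dvd d p

lemma cp_of_not_dvd {p d : ℕ} (h : ¬ p ∣ d) : cp p d = d := by
  unfold cp
  rw [Nat.factorization_eq_zero_of_not_dvd h]; simp

lemma cp_self {p : ℕ} (hp : p.Prime) : cp p p = 1 := by
  unfold cp
  rw [Nat.Prime.factorization_self hp, pow_one, Nat.div_self hp.pos]

lemma cp_spec (p d : ℕ) : p ^ d.factorization p * cp p d = d := Nat.ordProj_mul_ordCompl_eq_self d p

lemma Phi_pos (d : ℕ) : 0 < Phi d := cyclotomic_pos' d (by norm_num)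

lemma Phi_cast (d : ℕ) (R : Type*) [CommRing R] :
    ((Phi d : ℤ) : R) = (cyclotomic d R).eval 2 := by
  unfold Phi
  have h := map_cyclotomic_int d R
  rw [← h, eval_map]
  have h2 := eval₂_at_natCast (p := cyclotomic d ℤ) (Int.castRingHom R) 2
  have e1 : ((2 : ℕ) : ℤ) = 2 := by norm_num
  have e2 : ((2 : ℕ) : R) = 2 := by norm_num
  rw [e1, e2] at h2
  rw [h2]; simp

lemma dvd_Phi_iff {p d : ℕ} (hp : p.Prime) (hd : d ≠ 0) :
    (p : ℤ) ∣ Phi d ↔ orderOf (2 : ZMod p) = cp p d := by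
  have : Fact p.Prime := ⟨hp⟩
  have : NeZero ((cp p d : ℕ) : ZMod p) := by
    constructor
    rw [Ne, ZMod.natCast_eq_zero_iff]
    exact cp_not_dvd hp hd
  have key := isRoot_cyclotomic_prime_pow_mul_iff_of_charP (m := cp p d) (k := d.factorization p)
    (p := p) (R := ZMod p) (μ := 2)
  rw [cp_spec] at key
  rw [← ZMod.intCast_zmod_eq_zero_iff_dvd, Phi_cast]
  rw [← IsPrimitiveRoot.iff_orderOf]
  exact key

lemma Phi_dvd (d : ℕ) : Phi d ∣ 2 ^ d - 1 := by
  have h := cyclotomic.dvd_X_pow_sub_one d ℤ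
  obtain ⟨q, hq⟩ := h
  refine ⟨q.eval 2, ?_⟩
  have := congrArg (fun f => f.eval (2 : ℤ)) hq
  simpa [Phi] using this

lemma mul_Phi_dvd {m d : ℕ} (hd : d ≠ 0) (hmd : m ∣ d) (hne : m ≠ d) :
    (2 ^ m - 1) * Phi d ∣ 2 ^ d - 1 := by
  have hm : m ∈ d.properDivisors := by
    rw [Nat.mem_properDivisors]
    exact ⟨hmd, lt_of_le_of_ne (Nat.le_of_dvd (Nat.pos_of_ne_zero hd) hmd) hne⟩
  obtain ⟨q, hq⟩ := X_pow_sub_one_mul_cyclotomic_dvd_X_pow_sub_one_of_dvd ℤ hm
  refine ⟨q.eval 2, ?_⟩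
  have := congrArg (fun f => f.eval (2 : ℤ)) hq
  simpa [Phi] using this

lemma modEq_one_of_primes (d : ℕ) (F : ℕ) (hF : F ≠ 0)
    (h : ∀ p : ℕ, p.Prime → p ∣ F → p ≡ 1 [MOD d]) : F ≡ 1 [MOD d] := by
  induction F using Nat.recOnMul with
  | zero => exact absurd rfl hF
  | one => rfl
  | prime p hp => exact h p hp dvd_rfl
  | mul a b iha ihb =>
    have ha : a ≠ 0 := by rintro rfl; simp at hF
    have hb : b ≠ 0 := by rintro rfl; simp at hF
    have h1 := iha ha (fun p hp hpa => h p hp (hpa.mul_right b))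
    have h2 := ihb hb (fun p hp hpb => h p hp (hpb.mul_left a))
    simpa using h1.mul h2

/-- No prime factor of d divides the value Phi d. -/
def NonIntr (d : ℕ) : Prop := ∀ p : ℕ, p.Prime → p ∣ d → ¬ ((p : ℤ) ∣ Phi d)

lemma two_ne_zero_of_odd {p : ℕ} (hp : p.Prime) (h2 : p ≠ 2) : (2 : ZMod p) ≠ 0 := by
  have : Fact p.Prime := ⟨hp⟩
  intro h
  have : ((2 : ℕ) : ZMod p) = 0 := by exact_mod_cast h
  rw [ZMod.natCast_eq_zero_iff] at this
  exact h2 ((Nat.prime_dvd_prime_iff_eq hp Nat.prime_two).1 this)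

lemma ne_two_of_dvd_Phi {p d : ℕ} (hd : d ≠ 0) (h : (p : ℤ) ∣ Phi d) : p ≠ 2 := by
  rintro rfl
  have h1 : ((2 : ℕ) : ℤ) ∣ 2 ^ d - 1 := h.trans (Phi_dvd d)
  have h2 : ((2 : ℕ) : ℤ) ∣ 2 ^ d := by
    exact_mod_cast dvd_pow_self (2 : ℤ) hd
  have h3 : ((2 : ℕ) : ℤ) ∣ 1 := by
    have h4 := dvd_sub h2 h1
    rwa [sub_sub_cancel] at h4
  norm_num at h3

lemma order_dvd {p : ℕ} (hp : p.Prime) (h2 : p ≠ 2) : orderOf (2 : ZMod p) ∣ p - 1 := by
  have : Fact p.Prime := ⟨hp⟩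
  exact ZMod.orderOf_dvd_card_sub_one (two_ne_zero_of_odd hp h2)

lemma order_lt {p : ℕ} (hp : p.Prime) (h2 : p ≠ 2) : orderOf (2 : ZMod p) < p := by
  have := Nat.le_of_dvd (Nat.sub_pos_of_lt hp.one_lt) (order_dvd hp h2)
  have := hp.pos
  omega

/-- Every prime factor of Phi d (for d without intrinsic prime) is 1 mod d. -/
lemma prime_factor {p d : ℕ} (hp : p.Prime) (hd : d ≠ 0) (hN : NonIntr d)
    (h : (p : ℤ) ∣ Phi d) : d ∣ p - 1 := by
  have hnd : ¬ p ∣ d := fun hpd => hN p hp hpd h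
  have h1 := (dvd_Phi_iff hp hd).1 h
  rw [cp_of_not_dvd hnd] at h1
  rw [← h1]
  exact order_dvd hp (ne_two_of_dvd_Phi hd h)

/-- Natural number version of Phi. -/
noncomputable def F (d : ℕ) : ℕ := (Phi d).natAbs

lemma F_cast (d : ℕ) : ((F d : ℕ) : ℤ) = Phi d := by
  unfold F
  rw [Int.natCast_natAbs, abs_of_pos (Phi_pos d)]

lemma F_ne_zero (d : ℕ) : F d ≠ 0 := by
  have := Phi_pos d
  rw [← F_cast] at this
  exact_mod_cast this.ne'

lemma dvd_F_iff (p d : ℕ) : p ∣ F d ↔ (p : ℤ) ∣ Phi d := by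
  rw [← F_cast]; exact Int.natCast_dvd_natCast.symm

lemma F_modEq {d : ℕ} (hd : d ≠ 0) (hN : NonIntr d) : F d ≡ 1 [MOD d] := by
  refine modEq_one_of_primes d (F d) (F_ne_zero d) ?_
  intro p hp hpF
  have := prime_factor hp hd hN ((dvd_F_iff p d).1 hpF)
  exact ((Nat.modEq_iff_dvd' hp.one_lt.le).2 this).symm

lemma F_odd {d : ℕ} (hd : d ≠ 0) : Odd (F d) := by
  rw [← Nat.not_even_iff_odd, even_iff_two_dvd]
  intro h
  exact ne_two_of_dvd_Phi hd ((dvd_F_iff 2 d).1 h) rfl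

lemma F_ge {d : ℕ} (hd : 1 < d) (hodd : Odd d) (hN : NonIntr d) : 2 * d + 1 ≤ F d := by
  have hd0 : d ≠ 0 := by omega
  have h1 : 1 < F d := by
    have := sub_one_lt_natAbs_cyclotomic_eval (n := d) (q := 2) hd (by norm_num)
    simpa [F, Phi] using this
  obtain ⟨p, hp, hpF⟩ := Nat.exists_prime_and_dvd (show F d ≠ 1 by omega)
  have h2 := (dvd_F_iff p d).1 hpF
  have hp2 := ne_two_of_dvd_Phi hd0 h2
  have h3 := prime_factor hp hd0 hN h2
  have hpodd : Odd p := hp.odd_of_ne_two hp2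
  have h4 : 2 ∣ p - 1 := by
    obtain ⟨k, hk⟩ := hpodd
    exact ⟨k, by omega⟩
  have h5 : 2 * d ∣ p - 1 := by
    refine Nat.Coprime.mul_dvd_of_dvd_of_dvd ?_ h4 h3
    exact (Nat.coprime_two_left).2 hodd
  have h6 := Nat.le_of_dvd (Nat.sub_pos_of_lt hp.one_lt) h5
  have h7 := Nat.le_of_dvd (Nat.pos_of_ne_zero (F_ne_zero d)) hpF
  have := hp.one_lt
  omega

/-- Phi k is a unit modulo 5 for odd k. -/
lemma Phi_ne_zero_mod5 {k : ℕ} (hk : Odd k) : ((Phi k : ℤ) : ZMod 5) ≠ 0 := by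
  intro h
  rw [ZMod.intCast_zmod_eq_zero_iff_dvd] at h
  have h1 := h.trans (Phi_dvd k)
  rw [← ZMod.intCast_zmod_eq_zero_iff_dvd] at h1
  push_cast at h1
  obtain ⟨j, rfl⟩ := hk
  have h2 : (2 : ZMod 5) ^ (2 * j + 1) = 2 * (-1) ^ j := by
    rw [pow_succ, pow_mul, show (2 : ZMod 5) ^ 2 = -1 by decide, mul_comm]
  rw [h2] at h1
  rcases neg_one_pow_eq_or (ZMod 5) j with h3 | h3 <;> rw [h3] at h1 <;> revert h1 <;> decide

lemma Phi_mod5 (m : ℕ) (hodd : Odd m) (h17 : 17 ∣ m) : ((Phi m : ℤ) : ZMod 5) = 1 := by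
  induction m using Nat.strong_induction_on with
  | _ m ih =>
    obtain ⟨k, rfl⟩ := h17
    have hk : Odd k := by
      rcases Nat.odd_mul.1 hodd with ⟨_, h⟩
      exact h
    have hkpos : 0 < k := hk.pos
    have hpow : (2 : ZMod 5) ^ 17 = 2 := by decide
    by_cases h : 17 ∣ k
    · have h1 := cyclotomic_expand_eq_cyclotomic (p := 17) (n := k) (by norm_num) h (ZMod 5)
      have h2 := congrArg (fun f => f.eval (2 : ZMod 5)) h1
      simp only [expand_eval, hpow] at h2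
      rw [mul_comm 17 k, Phi_cast, ← h2, ← Phi_cast]
      exact ih k (by omega) hk h
    · have h1 := cyclotomic_expand_eq_cyclotomic_mul (p := 17) (n := k) (by norm_num) h (ZMod 5)
      have h2 := congrArg (fun f => f.eval (2 : ZMod 5)) h1
      simp only [expand_eval, hpow, eval_mul] at h2
      rw [mul_comm 17 k]
      rw [← Phi_cast, ← Phi_cast] at h2
      have hne := Phi_ne_zero_mod5 hk
      have : Fact (Nat.Prime 5) := ⟨by norm_num⟩
      have h3 : ((Phi k : ℤ) : ZMod 5) * ((Phi (k * 17) : ℤ) : ZMod 5) =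
          ((Phi k : ℤ) : ZMod 5) * 1 := by
        rw [mul_one, mul_comm]; exact h2.symm
      exact mul_left_cancel₀ hne h3

/-- The states of the construction. -/
structure State (n m : ℕ) : Prop where
  mod10 : n % 10 = 9
  one_lt : 1 < m
  dvd_sub : m ∣ n - 2
  dvd_pow : (n : ℤ) ∣ 2 ^ m - 1
  Phi_dvd : Phi m ∣ (n : ℤ)
  seventeen : 17 ∣ m
  big : ∀ p : ℕ, p.Prime → p ∣ m → m * p + 2 < n
  nonIntr : NonIntr m

lemma odd_of_dvd {n d : ℕ} (h10 : n % 10 = 9) (h : d ∣ n - 2) : Odd d := by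
  obtain ⟨c, hc⟩ := h
  have h1 : Odd (n - 2) := by
    rw [Nat.odd_iff]; omega
  rw [hc] at h1
  exact (Nat.odd_mul.1 h1).1

lemma build {n m d : ℕ} (h10 : n % 10 = 9) (hm : 1 < m) (hpow : (n : ℤ) ∣ 2 ^ m - 1)
    (h17 : 17 ∣ m) (hmd : m ∣ d) (hdn : d ∣ n - 2) (hne : m ≠ d) (hN : NonIntr d) :
    State (n * F d) d ∧ n < n * F d := by
  have hn9 : 9 ≤ n := by omega
  have hdpos : 0 < d := Nat.pos_of_dvd_of_pos hdn (by omega)
  have hd1 : 1 < d := lt_of_lt_of_le hm (Nat.le_of_dvd hdpos hmd)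
  have hd0 : d ≠ 0 := by omega
  have hdodd : Odd d := odd_of_dvd h10 hdn
  have hF := F_ge hd1 hdodd hN
  have hF10 : F d % 10 = 1 := by
    have h5 : F d % 5 = 1 := by
      have h := Phi_mod5 d hdodd (h17.trans hmd)
      rw [← F_cast] at h
      have h' : ((F d : ℕ) : ZMod 5) = ((1 : ℕ) : ZMod 5) := by
        push_cast at h ⊢
        exact h
      rw [ZMod.natCast_eq_natCast_iff] at h'
      exact h'
    have h2 : F d % 2 = 1 := Nat.odd_iff.1 (F_odd hd0)
    omega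
  have hlt : n < n * F d := by nlinarith
  refine ⟨⟨?_, hd1, ?_, ?_, ?_, h17.trans hmd, ?_, hN⟩, hlt⟩
  · rw [Nat.mul_mod, h10, hF10]
  · -- d ∣ n * F d - 2
    have h1 : n * F d ≡ n * 1 [MOD d] := (F_modEq hd0 hN).mul_left n
    have h2 : n ≡ 2 [MOD d] := ((Nat.modEq_iff_dvd' (by omega)).2 hdn).symm
    have h3 : 2 ≡ n * F d [MOD d] := (h1.trans (by rw [mul_one]; exact h2)).symm
    exact (Nat.modEq_iff_dvd' (by omega)).1 h3
  · have h1 := mul_Phi_dvd hd0 hmd hne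
    push_cast
    rw [F_cast]
    exact (mul_dvd_mul_right hpow (Phi d)).trans h1
  · push_cast
    rw [F_cast]
    exact Dvd.intro_left _ rfl
  · intro p hp hpd
    have h1 : p ≤ n - 2 := Nat.le_of_dvd (by omega) (hpd.trans hdn)
    have h2 : d * p + 2 < n * (2 * d + 1) := by
      have h3 : d * p ≤ d * n := Nat.mul_le_mul_left d (by omega)
      nlinarith
    exact lt_of_lt_of_le h2 (Nat.mul_le_mul_left n hF)

/-- Analysis of an intrinsic prime of m * s for a state (n, m). -/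
lemma intr_analysis {n m : ℕ} (S : State n m) {t a : ℕ} (ht : t.Prime)
    (htn : t ∣ n - 2) {p : ℕ} (hp : p.Prime) (hpd : p ∣ m * t ^ a)
    (hpP : (p : ℤ) ∣ Phi (m * t ^ a)) :
    p ∣ m ∧ p ≠ t ∧ p ≠ 2 ∧ orderOf (2 : ZMod p) = cp p m * t ^ a := by
  have hm0 : m ≠ 0 := by have := S.one_lt; omega
  have hta0 : t ^ a ≠ 0 := pow_ne_zero _ ht.ne_zero
  have hmt0 : m * t ^ a ≠ 0 := mul_ne_zero hm0 hta0
  have hp2 : p ≠ 2 := ne_two_of_dvd_Phi hmt0 hpP
  have h1 := (dvd_Phi_iff hp hmt0).1 hpP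
  rw [cp_mul] at h1
  have hn9 : 9 ≤ n := by have := S.mod10; omega
  have hpt : p ≠ t := by
    intro hpt
    subst hpt
    have h2 : cp p (p ^ a) = 1 := by
      clear h1 hpP hpd hmt0 hta0
      induction a with
      | zero => simp [cp]
      | succ b ih => rw [pow_succ, cp_mul, ih, cp_self hp]
    rw [h2, mul_one] at h1
    have h3 : (p : ℤ) ∣ Phi m := (dvd_Phi_iff hp hm0).2 h1
    by_cases hpm : p ∣ m
    · exact S.nonIntr p hp hpm h3
    · have h4 : (p : ℤ) ∣ (n : ℤ) := h3.trans S.Phi_dvd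
      have h5 : p ∣ n := Int.natCast_dvd_natCast.1 h4
      have h6 : p ∣ 2 := by
        have := Nat.dvd_sub h5 htn
        rwa [Nat.sub_sub_self (by omega)] at this
      exact hp2 ((Nat.prime_dvd_prime_iff_eq hp Nat.prime_two).1 h6)
  have hpm : p ∣ m := by
    rcases (Nat.Prime.dvd_mul hp).1 hpd with h | h
    · exact h
    · exact absurd ((Nat.prime_dvd_prime_iff_eq hp ht).1 (hp.dvd_of_dvd_pow h)) hpt
  refine ⟨hpm, hpt, hp2, ?_⟩
  have h2 : cp p (t ^ a) = t ^ a := by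
    apply cp_of_not_dvd
    intro h
    exact hpt ((Nat.prime_dvd_prime_iff_eq hp ht).1 (hp.dvd_of_dvd_pow h))
  rw [h2] at h1
  exact h1

/-- Two primes p, q dividing m, each with order of 2 a multiple of the prime-to-itself part of m,
coincide. -/
lemma uniq {m p q x y : ℕ} (hp : p.Prime) (hq : q.Prime) (hp2 : p ≠ 2) (hq2 : q ≠ 2)
    (hpm : p ∣ m) (hqm : q ∣ m) (h1 : orderOf (2 : ZMod p) = cp p m * x)
    (h2 : orderOf (2 : ZMod q) = cp q m * y) : p = q := by
  by_contra hne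
  have aux : ∀ p q : ℕ, p.Prime → q.Prime → p ≠ 2 → p ≠ q → q ∣ m → ∀ x,
      orderOf (2 : ZMod p) = cp p m * x → q < p := by
    intro p q hp hq hp2 hne hqm x h1
    have hq' : q ∣ cp p m := by
      have hspec := cp_spec p m
      rw [← hspec] at hqm
      rcases (Nat.Prime.dvd_mul hq).1 hqm with h | h
      · exact absurd ((Nat.prime_dvd_prime_iff_eq hq hp).1 (hq.dvd_of_dvd_pow h)).symm hne
      · exact h
    have h3 : q ∣ p - 1 := by
      refine (hq'.trans ?_).trans (order_dvd hp hp2)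
      rw [h1]
      exact Dvd.intro _ rfl
    have := Nat.le_of_dvd (Nat.sub_pos_of_lt hp.one_lt) h3
    have := hp.one_lt
    omega
  have := aux p q hp hq hp2 hne hqm x h1
  have := aux q p hq hp hq2 (Ne.symm hne) hpm y h2
  omega

lemma step {n m : ℕ} (S : State n m) : ∃ N d, State N d ∧ n < N := by
  have hm0 : m ≠ 0 := by have := S.one_lt; omega
  have hn9 : 9 ≤ n := by have := S.mod10; omega
  obtain ⟨T, hT⟩ := S.dvd_sub
  -- T is larger than every prime factor of m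
  have hTbig : ∀ p : ℕ, p.Prime → p ∣ m → p < T := by
    intro p hp hpm
    have h1 := S.big p hp hpm
    have h2 : m * p < m * T := by omega
    exact lt_of_mul_lt_mul_left h2 (Nat.zero_le m)
  have hT1 : T ≠ 1 := by
    intro h
    obtain ⟨p, hp, hpm⟩ := Nat.exists_prime_and_dvd (show m ≠ 1 by have := S.one_lt; omega)
    have := hTbig p hp hpm
    have := hp.one_lt
    omega
  have hT0 : T ≠ 0 := by
    rintro rfl
    omega
  obtain ⟨t, ht, htT⟩ := Nat.exists_prime_and_dvd hT1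
  -- it suffices to find s
  suffices h : ∃ s, s ∣ T ∧ 1 < s ∧ NonIntr (m * s) by
    obtain ⟨s, hsT, hs1, hN⟩ := h
    have hb := build (n := n) (m := m) (d := m * s) S.mod10 S.one_lt S.dvd_pow S.seventeen
      (Dvd.intro _ rfl) (by rw [hT]; exact mul_dvd_mul_left m hsT)
      (by intro h; have : m * 1 = m * s := by rw [mul_one]; exact h
          have := Nat.eq_of_mul_eq_mul_left (Nat.pos_of_ne_zero hm0) this
          omega) hN
    exact ⟨_, _, hb.1, hb.2⟩
  by_contra hcon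
  push Not at hcon
  -- every prime t' ∣ T has a bad prime p
  have hbad : ∀ t', t'.Prime → t' ∣ T → ∃ p : ℕ, p.Prime ∧ p ∣ m ∧ p ≠ t' ∧ p ≠ 2 ∧
      orderOf (2 : ZMod p) = cp p m * t' := by
    intro t' ht' ht'T
    have h1 := hcon t' ht'T ht'.one_lt
    unfold NonIntr at h1
    push Not at h1
    obtain ⟨p, hp, hpd, hpP⟩ := h1
    have h2 := intr_analysis (a := 1) S ht'
      (by rw [hT]; exact ht'T.mul_left m) hp (by simpa using hpd) (by simpa using hpP)
    rw [pow_one] at h2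
    exact ⟨p, hp, h2⟩
  obtain ⟨p, hp, hpm, hpt, hp2, hord⟩ := hbad t ht htT
  have htp : t < p := by
    have h1 : t ∣ p - 1 := by
      refine Dvd.dvd.trans ?_ (order_dvd hp hp2)
      rw [hord]
      exact Dvd.intro_left _ rfl
    have := Nat.le_of_dvd (Nat.sub_pos_of_lt hp.one_lt) h1
    have := hp.one_lt
    omega
  have hpT := hTbig p hp hpm
  obtain ⟨U, hU⟩ := htT
  have hU1 : U ≠ 1 := by
    rintro rfl
    omega
  obtain ⟨t', ht', ht'U⟩ := Nat.exists_prime_and_dvd hU1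
  by_cases htt : t' = t
  · subst htt
    -- s = t ^ 2
    have hs : t' ^ 2 ∣ T := by
      rw [hU, pow_two]; exact mul_dvd_mul_left t' ht'U
    have h1 := hcon (t' ^ 2) hs (by have := ht'.one_lt; nlinarith)
    unfold NonIntr at h1
    push Not at h1
    obtain ⟨q, hq, hqd, hqP⟩ := h1
    have h2 := intr_analysis (a := 2) S ht'
      (by rw [hT, hU]; exact (Dvd.intro _ rfl : t' ∣ t' * U).mul_left m) hq hqd hqP
    obtain ⟨hqm, hqt, hq2, hqord⟩ := h2
    have hpq := uniq hp hq hp2 hq2 hpm hqm hord hqord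
    subst hpq
    rw [hord] at hqord
    have hcpos : 0 < cp p m := Nat.pos_of_dvd_of_pos (cp_dvd p m) (Nat.pos_of_ne_zero hm0)
    have h3 := Nat.eq_of_mul_eq_mul_left hcpos hqord
    have := ht'.one_lt
    nlinarith
  · obtain ⟨q, hq, hqm, hqt, hq2, hqord⟩ := hbad t' ht' (by rw [hU]; exact ht'U.mul_left t)
    have hpq := uniq hp hq hp2 hq2 hpm hqm hord hqord
    subst hpq
    rw [hord] at hqord
    have hcpos : 0 < cp p m := Nat.pos_of_dvd_of_pos (cp_dvd p m) (Nat.pos_of_ne_zero hm0)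
    exact htt (Nat.eq_of_mul_eq_mul_left hcpos hqord).symm

/-- Passing from a remainder to a divisibility over the integers. -/
lemma dvd_of_mod (p e : ℕ) (hp : 1 < p) (h : 2 ^ e % p = 1) : (p : ℤ) ∣ 2 ^ e - 1 := by
  have h1 : 2 ^ e ≡ 1 [MOD p] := by
    rw [Nat.ModEq, h, Nat.mod_eq_of_lt hp]
  have h2 := (Nat.modEq_iff_dvd.1 h1.symm)
  push_cast at h2
  exact h2

lemma seed_dvd : ((1210344599 : ℕ) : ℤ) ∣ 2 ^ 1549737 - 1 := by
  have h73 : (73 : ℤ) ∣ 2 ^ 1549737 - 1 := by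
    have h : (2 : ℤ) ^ 9 - 1 ∣ (2 ^ 9) ^ 172193 - 1 := sub_one_dvd_pow_sub_one (2 ^ 9 : ℤ) 172193
    rw [← pow_mul] at h
    exact dvd_trans (by norm_num) h
  have h337 : (337 : ℤ) ∣ 2 ^ 1549737 - 1 := by
    have h : (2 : ℤ) ^ 21 - 1 ∣ (2 ^ 21) ^ 73797 - 1 := sub_one_dvd_pow_sub_one (2 ^ 21 : ℤ) 73797
    rw [← pow_mul] at h
    exact dvd_trans (by norm_num) h
  have h49199 : (49199 : ℤ) ∣ 2 ^ 1549737 - 1 := by
    have h : (2 : ℤ) ^ 24599 - 1 ∣ (2 ^ 24599) ^ 63 - 1 :=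
      sub_one_dvd_pow_sub_one (2 ^ 24599 : ℤ) 63
    rw [← pow_mul] at h
    have h0 : (2 : ℕ) ^ 24599 % 49199 = 1 := by decide +kernel
    have h1 := dvd_of_mod 49199 24599 (by norm_num) h0
    exact dvd_trans (by exact_mod_cast h1) h
  have h1 : (73 * 337 : ℤ) ∣ 2 ^ 1549737 - 1 :=
    IsCoprime.mul_dvd (by norm_num) h73 h337
  have h2 : (73 * 337 * 49199 : ℤ) ∣ 2 ^ 1549737 - 1 :=
    IsCoprime.mul_dvd (by norm_num) h1 h49199
  norm_num at h2 ⊢
  exact h2

lemma seed_nonIntr : NonIntr 1210344597 := by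
  intro p hp hpd hP
  have hfac : (1210344597 : ℕ) = 3 ^ 2 * 7 * 11 * 17 * 71 * 1447 := by norm_num
  have hp2 := ne_two_of_dvd_Phi (by norm_num) hP
  have h1 := (dvd_Phi_iff hp (by norm_num)).1 hP
  have hlt := order_lt hp hp2
  rw [h1] at hlt
  -- the prime-to-p part of the seed is larger than p
  have key : ∀ q k c : ℕ, q.Prime → 1210344597 = q ^ k * c → ¬ q ∣ c → q < c → p ≠ q := by
    intro q k c hq he hqc hlt' hpq
    subst hpq
    have hpk : cp p (p ^ k) = 1 := by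
      clear he
      induction k with
      | zero => simp [cp]
      | succ b ih => rw [pow_succ, cp_mul, ih, cp_self hq]
    rw [he, cp_mul, hpk, cp_of_not_dvd hqc, one_mul] at hlt
    omega
  have c3 := key 3 2 134482733 (by norm_num) (by norm_num) (by norm_num) (by norm_num)
  have c7 := key 7 1 172906371 (by norm_num) (by norm_num) (by norm_num) (by norm_num)
  have c11 := key 11 1 110031327 (by norm_num) (by norm_num) (by norm_num) (by norm_num)
  have c17 := key 17 1 71196741 (by norm_num) (by norm_num) (by norm_num) (by norm_num)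
  have c71 := key 71 1 17047107 (by norm_num) (by norm_num) (by norm_num) (by norm_num)
  have c1447 := key 1447 1 836451 (by norm_num) (by norm_num) (by norm_num) (by norm_num)
  rw [hfac] at hpd
  have hd : ∀ q : ℕ, q.Prime → p ∣ q → p = q := fun q hq h =>
    (Nat.prime_dvd_prime_iff_eq hp hq).1 h
  rcases (Nat.Prime.dvd_mul hp).1 hpd with h | h
  · rcases (Nat.Prime.dvd_mul hp).1 h with h | h
    · rcases (Nat.Prime.dvd_mul hp).1 h with h | h
      · rcases (Nat.Prime.dvd_mul hp).1 h with h | h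
        · rcases (Nat.Prime.dvd_mul hp).1 h with h | h
          · exact c3 (hd 3 (by norm_num) (hp.dvd_of_dvd_pow h))
          · exact c7 (hd 7 (by norm_num) h)
        · exact c11 (hd 11 (by norm_num) h)
      · exact c17 (hd 17 (by norm_num) h)
    · exact c71 (hd 71 (by norm_num) h)
  · exact c1447 (hd 1447 (by norm_num) h)

lemma seed_state : ∃ N d, State N d := by
  have h := build (n := 1210344599) (m := 1549737) (d := 1210344597) (by norm_num) (by norm_num)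
    seed_dvd (by norm_num) (by norm_num) (by norm_num) (by norm_num) seed_nonIntr
  exact ⟨_, _, h.1⟩

lemma exists_large (a : ℕ) : ∃ N d, State N d ∧ a < N := by
  induction a with
  | zero =>
    obtain ⟨N, d, S⟩ := seed_state
    exact ⟨N, d, S, by have := S.mod10; omega⟩
  | succ a ih =>
    obtain ⟨N, d, S, h⟩ := ih
    obtain ⟨N', d', S', h'⟩ := step S
    exact ⟨N', d', S', by omega⟩

lemma State.solution {n m : ℕ} (S : State n m) : n ∣ 2 ^ (n - 2) - 1 := by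
  have h1 : (2 : ℤ) ^ m - 1 ∣ 2 ^ (n - 2) - 1 := by
    obtain ⟨T, hT⟩ := S.dvd_sub
    rw [hT, pow_mul]
    exact sub_one_dvd_pow_sub_one _ _
  have h2 := S.dvd_pow.trans h1
  have h3 : ((2 ^ (n - 2) - 1 : ℕ) : ℤ) = 2 ^ (n - 2) - 1 := by
    rw [Nat.cast_sub Nat.one_le_two_pow]; push_cast; ring
  rw [← h3] at h2
  exact Int.natCast_dvd_natCast.1 h2

/-- There are infinitely many `n` with last decimal digit `9` and `2 ^ (n - 2) ≡ 1 (mod n)`. -/
theorem result : {n : ℕ | n % 10 = 9 ∧ n ∣ 2 ^ (n - 2) - 1}.Infinite := by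
  apply Set.infinite_of_forall_exists_gt
  intro a
  obtain ⟨N, d, S, h⟩ := exists_large a
  exact ⟨N, ⟨S.mod10, S.solution⟩, h⟩

end Pool.Agent.Results.MP_aad82b_nt.InfinitelyManyNine
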